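import Pool.Agent.Helper36.LX.Sheet
import Pool.Agent.Helper50.LG.GCHN

/-!
Row CHN of project LX (`MP_665203_co`).
-/

namespace H11ST
namespace LX

theorem chn : LX_CHN := fun d n η s U h => LG.gchn d n η s U h

end LX
end H11ST
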